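import Pool.Agent.BICS.Clean
import Pool.Agent.Helper53.BQ.Bq

/-!
# Cleaning one side, with skewness (helper74, MP_5165fa_co)

`side3s` is `side3` with one more conclusion: the cleaning set `Z` and the clean block are skew in
`N`.  Therefore (`quo_mid`) the same `Z` cleans every matroid between `L` and `N`.
-/

open Set BIC
open scoped Matroid

namespace BICS

universe u

theorem side3s (k c t : ℕ) :
    ∃ m : ℕ, ∀ {α : Type u} (L N : Matroid α) [L.Finite] [N.Finite]
    (S : Set α) (ends : α → Sym2 (ℕ × ℕ)) (x y : ℕ), S ⊆ L.E → Bic N S ends →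
    Grd S ends x y m m → Quo L N S → rk L S ≤ rk N S + c →
    HasUniformMinor L k ∨ ∃ Z ⊆ S, Z.ncard ≤ 12 * k ∧ ∃ a b, rect a b t t ⊆ rect x y m m ∧
      Disjoint Z (blk S ends a b t) ∧
      (∀ X ⊆ blk S ends a b t, rk N (X ∪ Z) = rk N X + rk N Z) ∧
      ∀ X ⊆ blk S ends a b t, rk L (X ∪ Z) = rk N X + rk L Z := by
  have thmC1' := fun s => thmC1.{u} k s
  choose mC hC using thmC1'
  obtain ⟨Sc, hSc⟩ := stable (fun s => mC s + s + k * s + t)
  refine ⟨Sc c 3, ?_⟩
  intro α L N _ _ S ends x y hSL hB hG hQ hc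
  set m := Sc c 3 with hm
  have hle : ∀ {X : Set α}, X ⊆ S → rk N X ≤ rk L X := fun hX => Quo.le hQ hX
  obtain ⟨⟨a, b, r⟩, hr, s, hs3, hF, hst⟩ := hSc
    (fun p q : ℕ × ℕ × ℕ => rect p.1 p.2.1 p.2.2 p.2.2 ⊆ rect q.1 q.2.1 q.2.2 q.2.2)
    (fun p => p.2.2)
    (fun p => rk L (blk S ends p.1 p.2.1 p.2.2) - rk N (blk S ends p.1 p.2.1 p.2.2))
    (fun _ => subset_refl _) (fun _ _ _ h1 h2 => h1.trans h2)
    (by
      intro p q hpq
      have h1 := hQ _ _ (blk_mono hpq : blk S ends p.1 p.2.1 p.2.2 ⊆ blk S ends q.1 q.2.1 q.2.2)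
        blk_sub
      omega)
    c 3 (x, y, m) (by
      have h1 : blk S ends x y m = S := Grd_ins_self hG
      simp only [h1]
      omega) (le_refl _)
  simp only at hr hF hst
  set u := rk L (blk S ends a b r) - rk N (blk S ends a b r) with hu
  have key : ∀ a' b' r', rect a' b' r' r' ⊆ rect a b r r → s ≤ r' →
      rk L (blk S ends a' b' r') = rk N (blk S ends a' b' r') + u := by
    intro a' b' r' h1 h2
    have h3 := hst (a', b', r') h1 h2
    simp only at h3
    have h4 := hle (blk_sub (S := S) (ends := ends) (x := a') (y := b') (m := r'))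
    omega
  have hub : rk L (blk S ends a b r) = rk N (blk S ends a b r) + u :=
    key a b r (subset_refl _) (by omega)
  by_cases huk : k ≤ u
  · left
    have hms : rect a b (mC s) (mC s) ⊆ rect a b r r := rect_sub (le_refl _) (by omega)
      (le_refl _) (by omega)
    refine hC s L N (blk S ends a b (mC s)) ends a b u (blk_sub.trans hSL)
      (Bic_sub hB blk_sub) (Grd_sub hG (hms.trans hr)) ?_ huk ?_
    · intro X Y hXY hY
      exact hQ X Y hXY (hY.trans blk_sub)
    · intro a' b' c' hc' hrc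
      rw [blk_blk hrc]
      exact key a' b' c' (hrc.trans hms) hc'
  · right
    push Not at huk
    have hus : u * s ≤ k * s := Nat.mul_le_mul_right s huk.le
    have hZr : rect a b (u * s) s ⊆ rect a b r r := rect_sub (le_refl _) (by omega)
      (le_refl _) (by omega)
    have hWr : rect (a + u * s) b t t ⊆ rect a b r r := rect_sub (by omega) (by omega)
      (le_refl _) (by omega)
    have hGb : Grd (blk S ends a b r) ends a b r r := Grd_sub hG hr
    obtain ⟨Z, hZ, hZc, hZd⟩ := clean_tiles (x := a) (y := b) (m := r) (a := a) (b := b)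
      (Bic_sub hB blk_sub) hGb
      (show Quo L N (blk S ends a b r) from fun X Y hXY hY => hQ X Y hXY (hY.trans blk_sub))
      hs3 (u := u) (by
        intro a' b' hab'
        rw [blk_blk hab']
        have := key a' b' s hab' (le_refl _)
        omega) u (le_refl _) hZr
    have hZb : Z ⊆ blk S ends a b r := hZ.trans (fun _ he => he.1)
    have hZ' : Z ⊆ ins S ends (rect a b (u * s) s) := by
      rw [← ins_ins hZr]
      exact hZ
    have hdis : Disjoint (rect a b (u * s) s) (rect (a + u * s) b t t) := by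
      rw [Set.disjoint_left]
      intro p hp hq
      rw [mem_rct] at hp hq
      omega
    refine ⟨Z, hZb.trans blk_sub, by omega, a + u * s, b, hWr.trans hr, ?_, ?_, ?_⟩
    · exact (ins_disj hdis).mono_left hZ'
    · intro X hX
      have h1 := rk_skew hB hdis hZ' hX
      rw [union_comm X Z]
      omega
    · intro X hX
      have hXb : X ⊆ blk S ends a b r := hX.trans (blk_mono hWr)
      have h1 := rk_skew hB hdis hZ' hX
      have h2 := hQ Z (Z ∪ X) subset_union_left (union_subset (hZb.trans blk_sub)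
        (hXb.trans blk_sub))
      have h3 := hQ (Z ∪ X) (blk S ends a b r) (union_subset hZb hXb) blk_sub
      rw [union_comm X Z]
      omega

/-- `side3s` for all large grids -/
theorem side3s' (k c t : ℕ) : ∃ m : ℕ, ∀ {α : Type u} (L N : Matroid α) [L.Finite] [N.Finite]
    (S : Set α) (ends : α → Sym2 (ℕ × ℕ)) (x y n : ℕ), m ≤ n → S ⊆ L.E → Bic N S ends →
    Grd S ends x y n n → Quo L N S → rk L S ≤ rk N S + c →
    HasUniformMinor L k ∨ ∃ Z ⊆ S, Z.ncard ≤ 12 * k ∧ ∃ a b, rect a b t t ⊆ rect x y n n ∧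
      Disjoint Z (blk S ends a b t) ∧
      (∀ X ⊆ blk S ends a b t, rk N (X ∪ Z) = rk N X + rk N Z) ∧
      ∀ X ⊆ blk S ends a b t, rk L (X ∪ Z) = rk N X + rk L Z := by
  obtain ⟨m, hm⟩ := side3s.{u} k c t
  refine ⟨m, ?_⟩
  intro α L N _ _ S ends x y n hmn hSL hB hG hQ hc
  have hsub : rect x y m m ⊆ rect x y n n := rect_sub (le_refl _) (by omega) (le_refl _) (by omega)
  have hSS : blk S ends x y m ⊆ S := blk_sub
  have h1 := hQ (blk S ends x y m) S hSS (subset_refl _)
  rcases hm L N (blk S ends x y m) ends x y (hSS.trans hSL) (Bic_sub hB hSS) (Grd_sub hG hsub)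
    (fun X Y hXY hY => hQ X Y hXY (hY.trans hSS)) (by omega) with
    h | ⟨Z, hZ, hZc, a, b, hr, hd, hs, hX⟩
  · exact Or.inl h
  · right
    rw [blk_blk hr] at hd hs hX
    exact ⟨Z, hZ.trans hSS, hZc, a, b, hr.trans hsub, hd, hs, hX⟩

namespace WPP

variable {α : Type*}

/-- contraction sets `A ⊆ B`: `M ／ B` is a quotient of `M ／ A` -/
lemma quo_mono {M : Matroid α} [M.Finite] {A B E : Set α} (hAB : A ⊆ B) (hB : B ⊆ M.E)
    (hE : E ⊆ M.E \ B) : Quo (M ／ A) (M ／ B) E := by
  have fin1 : (M ／ A).Finite := BQ.fin_contract A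
  have h := quo_contract (M := M ／ A) (C := B \ A) (E := E)
    (fun z hz => ⟨hB hz.1, hz.2⟩)
    (fun z hz => ⟨⟨(hE hz).1, fun h => (hE hz).2 (hAB h)⟩, fun h => (hE hz).2 h.1⟩)
  rwa [Matroid.contract_contract, union_sdiff_self, union_eq_self_of_subset_left hAB] at h

/-- a set cleaning `L` over `N` cleans everything in between -/
lemma quo_mid {L T N : Matroid α} {S Z W : Set α} (h1 : Quo L T S) (h2 : Quo T N S)
    (hZ : Z ⊆ S) (hW : W ⊆ S)
    (hs : ∀ X ⊆ W, rk N (X ∪ Z) = rk N X + rk N Z)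
    (hL : ∀ X ⊆ W, rk L (X ∪ Z) = rk N X + rk L Z) {X : Set α} (hX : X ⊆ W) :
    rk T (X ∪ Z) = rk N X + rk T Z := by
  have a1 := h1 Z (X ∪ Z) subset_union_right (union_subset (hX.trans hW) hZ)
  have a2 := h2 Z (X ∪ Z) subset_union_right (union_subset (hX.trans hW) hZ)
  have a3 := hs X hX
  have a4 := hL X hX
  omega

/-- the ranks on the clean block in an intermediate minor -/
lemma stage {M : Matroid α} [M.Finite] {E C U U' Z W K D : Set α} (hE : E ⊆ M.E)
    (hC : C ⊆ M.E \ E) (hU : U' ⊆ U) (hZ : Z ⊆ E) (hW : W ⊆ E) (hd : Disjoint Z W)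
    (hs : ∀ X ⊆ W, rk (M ／ C) (X ∪ Z) = rk (M ／ C) X + rk (M ／ C) Z)
    (hL : ∀ X ⊆ W, rk (M ／ (C \ U)) (X ∪ Z) = rk (M ／ C) X + rk (M ／ (C \ U)) Z)
    (hK : K = Z ∪ (C \ U')) (hD : Disjoint W D) {X : Set α} (hX : X ⊆ W) :
    rk (M ／ K ＼ D) X = rk (M ／ C) X := by
  have hCE : C ⊆ M.E := hC.trans sdiff_subset
  have hEC : E ⊆ M.E \ C := fun z hz => ⟨hE hz, fun h => (hC h).2 hz⟩
  have hBE : C \ U' ⊆ M.E := sdiff_subset.trans hCE
  have hEB : E ⊆ M.E \ (C \ U') := fun z hz => ⟨hE hz, fun h => (hC h.1).2 hz⟩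
  have q1 : Quo (M ／ (C \ U)) (M ／ (C \ U')) E :=
    quo_mono (sdiff_subset_sdiff_right hU) hBE hEB
  have q2 : Quo (M ／ (C \ U')) (M ／ C) E := quo_mono sdiff_subset hCE hEC
  have h1 := quo_mid q1 q2 hZ hW hs hL hX
  have hKE : K ⊆ M.E := by
    rw [hK]
    exact union_subset (hZ.trans hE) hBE
  have hXK : X ⊆ M.E \ (K ∪ D) := by
    intro z hz
    refine ⟨hE (hW (hX hz)), ?_⟩
    rw [hK]
    rintro ((h | h) | h)
    · exact Set.disjoint_left.1 hd h (hX hz)
    · exact (hC h.1).2 (hW (hX hz))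
    · exact Set.disjoint_left.1 hD (hX hz) h
  have h2 := rk_minor hKE hXK
  have h3 := BQ.rk_con (M := M) (C := C \ U') (X := X ∪ Z) hBE
    (union_subset ((hX.trans hW).trans hEB) (hZ.trans hEB))
  have h4 := BQ.rk_con (M := M) (C := C \ U') (X := Z) hBE (hZ.trans hEB)
  rw [← hK] at h4
  rw [union_assoc, ← hK] at h3
  omega

/-- un-contracting a small set more -/
lemma defect_add {M : Matroid α} [M.Finite] {E C G X : Set α} (hE : E ⊆ M.E)
    (hC : C ⊆ M.E \ E) (hX : X.Finite) :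
    rk (M ／ (C \ (G ∪ X))) E ≤ rk (M ／ (C \ G)) E + X.ncard := by
  have hCE : C ⊆ M.E := hC.trans sdiff_subset
  have h1 := BQ.rk_con (M := M) (C := C \ (G ∪ X)) (X := E) (sdiff_subset.trans hCE)
    (fun z hz => ⟨hE hz, fun h => (hC h.1).2 hz⟩)
  have h2 := BQ.rk_con (M := M) (C := C \ G) (X := E) (sdiff_subset.trans hCE)
    (fun z hz => ⟨hE hz, fun h => (hC h.1).2 hz⟩)
  have h3 : rk M (E ∪ (C \ (G ∪ X))) ≤ rk M (E ∪ (C \ G)) :=
    rk_mono M (union_subset_union_right _ (sdiff_subset_sdiff_right subset_union_left))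
  have h4 : rk M (C \ G) ≤ rk M ((C \ (G ∪ X)) ∪ X) := by
    refine rk_mono M ?_
    intro z hz
    by_cases hzX : z ∈ X
    · exact Or.inr hzX
    · exact Or.inl ⟨hz.1, fun h => h.elim hz.2 hzX⟩
  have h5 := rk_union_le M (X := C \ (G ∪ X)) hX
  omega

end WPP

end BICS
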