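import Pool.Agent.Helper53.BQ.W
import Pool.Agent.Helper11.EXT.Cont
import Pool.Agent.Helper74.WPP.Side

/-!
# Theorem W++ : the conflicts split into two classes of bounded defect (helper74, MP_5165fa_co)

`F` is removed from the contraction set of `N₁` with bounded defect on side 1, `G` is removed from
the contraction set of `N₂✶` with bounded defect on side 2, and `C₁ ∩ D₂ ⊆ F ∪ G`.
-/

open Set BIC
open scoped Matroid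

namespace BICS

universe u

namespace WPP

variable {α : Type*}

/-- one side of the stage minor, contraction form -/
lemma stage_one {M : Matroid α} {Z₁ Z₂ F' G' C : Set α} (hd1 : Disjoint G' Z₂)
    (hd2 : Disjoint C (Z₂ ∪ F')) :
    M ／ Z₁ ＼ Z₂ ／ G' ＼ F' ／ C = M ／ ((Z₁ ∪ G') ∪ C) ＼ (Z₂ ∪ F') := by
  rw [← Matroid.contract_delete_comm (M ／ Z₁) hd1, Matroid.contract_contract,
    Matroid.delete_delete, ← Matroid.contract_delete_comm _ hd2, Matroid.contract_contract]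

/-- the other side, for the dual -/
lemma stage_two {M : Matroid α} {Z₁ Z₂ F' G' D : Set α} (hd1 : Disjoint G' Z₂)
    (hd2 : Disjoint ((Z₂ ∪ F') ∪ D) (Z₁ ∪ G')) :
    (M ／ Z₁ ＼ Z₂ ／ G' ＼ F')✶ ／ D = M✶ ／ ((Z₂ ∪ F') ∪ D) ＼ (Z₁ ∪ G') := by
  rw [← Matroid.contract_delete_comm (M ／ Z₁) hd1, Matroid.contract_contract,
    Matroid.delete_delete, Matroid.dual_contract_delete, Matroid.contract_contract,
    Matroid.contract_delete_comm _ hd2]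

end WPP

open WPP in
/-- **Theorem W++**, for a partition of the conflict set. -/
theorem thmWpp_part (k : ℕ) (hk : 1 ≤ k) : ∃ κ : ℕ, ∀ q : ℕ, ∃ n₀ : ℕ, ∀ n ≥ n₀,
    ∀ {α : Type u} (M : Matroid α) [M.Finite] (E₁ E₂ C₁ D₂ F G : Set α)
    (e₁ e₂ : α → Sym2 (ℕ × ℕ)) (x y x' y' : ℕ), E₁ ⊆ M.E → E₂ ⊆ M.E → Disjoint E₁ E₂ →
    C₁ ⊆ M.E \ E₁ → D₂ ⊆ M.E \ E₂ → Bic (M ／ C₁) E₁ e₁ → Grd E₁ e₁ x y n n →
    Bic (M✶ ／ D₂) E₂ e₂ → Grd E₂ e₂ x' y' n n → C₁ ∩ D₂ = F ∪ G → Disjoint F G →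
    rk (M ／ (C₁ \ F)) E₁ ≤ rk (M ／ C₁) E₁ + q →
    rk (M✶ ／ (D₂ \ G)) E₂ ≤ rk (M✶ ／ D₂) E₂ + q →
    KGe M E₁ E₂ κ → HasUniformMinor M k := by
  obtain ⟨nW, hW⟩ := thmWp.{u} k hk 0
  obtain ⟨κ₀, hSP⟩ := thmSP.{u} k hk
  set K := nW + κ₀ with hKdef
  obtain ⟨s₀, hs₀⟩ := hSP K
  set t2 := K + 24 * k with ht2
  set t1 := t2 + 32 * (t2 + 1) ^ 2 with ht1
  set w := s₀ + nW + 4 * (t1 + 1) + 2 with hw
  refine ⟨t1 + 32 * (t1 + 1) ^ 2 + 1, ?_⟩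
  intro q
  obtain ⟨m1, hm1⟩ := side3s'.{u} k (q + 12 * k) w
  obtain ⟨m2, hm2⟩ := side3s'.{u} k (q + (m1 * m1) * (m1 * m1)) w
  refine ⟨m1 + m2, ?_⟩
  intro n hn α M _ E₁ E₂ C₁ D₂ F G e₁ e₂ x y x' y' hE₁ hE₂ hE hC₁ hD₂ hB₁ hG₁ hB₂ hG₂ hFG hdFG
    hq1 hq2 hK
  have hC₁E : C₁ ⊆ M.E := hC₁.trans sdiff_subset
  have hD₂E : D₂ ⊆ M.E := hD₂.trans sdiff_subset
  have hE₁C : E₁ ⊆ M.E \ C₁ := fun x hx => ⟨hE₁ hx, fun h => (hC₁ h).2 hx⟩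
  have hE₂D : E₂ ⊆ M✶.E \ D₂ := fun x hx => ⟨hE₂ hx, fun h => (hD₂ h).2 hx⟩
  have hFC : F ⊆ C₁ := fun z hz => (hFG.symm ▸ (Or.inl hz : z ∈ F ∪ G) : z ∈ C₁ ∩ D₂).1
  have hFD : F ⊆ D₂ := fun z hz => (hFG.symm ▸ (Or.inl hz : z ∈ F ∪ G) : z ∈ C₁ ∩ D₂).2
  have hGC : G ⊆ C₁ := fun z hz => (hFG.symm ▸ (Or.inr hz : z ∈ F ∪ G) : z ∈ C₁ ∩ D₂).1
  have hGD : G ⊆ D₂ := fun z hz => (hFG.symm ▸ (Or.inr hz : z ∈ F ∪ G) : z ∈ C₁ ∩ D₂).2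
  have finC : ∀ A : Set α, (M ／ A).Finite := fun A => BQ.fin_contract A
  have finD : ∀ A : Set α, (M✶ ／ A).Finite := fun A => BQ.fin_contract A
  -- a block of side 1
  have hrec1 : rect x y m1 m1 ⊆ rect x y n n :=
    rect_sub (le_refl _) (by omega) (le_refl _) (by omega)
  set Xb := blk E₁ e₁ x y m1 with hXb
  have hXbE₁ : Xb ⊆ E₁ := blk_sub
  have hXbE : Xb ⊆ M.E := hXbE₁.trans hE₁
  have hXbf : Xb.Finite := M.ground_finite.subset hXbE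
  have hXbc : Xb.ncard ≤ (m1 * m1) * (m1 * m1) := blk_ncard_le hG₁.inj x y m1
  -- side 2
  have d2 : rk (M✶ ／ (D₂ \ (G ∪ Xb))) E₂ ≤ rk (M✶ ／ D₂) E₂ + (q + (m1 * m1) * (m1 * m1)) := by
    have h1 := defect_add (M := M✶) (C := D₂) (G := G) (by exact hE₂) (by exact hD₂) hXbf
    omega
  rcases hm2 (M✶ ／ (D₂ \ (G ∪ Xb))) (M✶ ／ D₂) E₂ e₂ x' y' n (by omega)
    (fun z hz => ⟨hE₂ hz, fun h => (hD₂ h.1).2 hz⟩) hB₂ hG₂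
    (quo_mono (M := M✶) sdiff_subset (by exact hD₂E) hE₂D) d2 with
    hU | ⟨Z₂, hZ₂, hZ₂c, a₂, b₂, hr₂, hdZ₂, hs₂, hL₂⟩
  · refine hum_dual (hum_mono ?_ hU)
    have := Matroid.contract_delete_isMinor M✶ (D₂ \ (G ∪ Xb)) ∅
    rwa [Matroid.delete_empty] at this
  set W₂ := blk E₂ e₂ a₂ b₂ w with hW₂def
  have hW₂E₂ : W₂ ⊆ E₂ := blk_sub
  have hZ₂E : Z₂ ⊆ M.E := hZ₂.trans hE₂
  have hZ₂f : Z₂.Finite := M.ground_finite.subset hZ₂E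
  -- side 1
  have d1 : rk (M ／ (C₁ \ (F ∪ Z₂))) Xb ≤ rk (M ／ C₁) Xb + (q + 12 * k) := by
    have h1 := defect_add (M := M) (C := C₁) (G := F) hXbE
      (fun z hz => ⟨(hC₁ hz).1, fun h => (hC₁ hz).2 (hXbE₁ h)⟩) hZ₂f
    have h2 := quo_mono (M := M) (A := C₁ \ F) sdiff_subset hC₁E hE₁C Xb E₁ hXbE₁ (subset_refl _)
    omega
  rcases hm1 (M ／ (C₁ \ (F ∪ Z₂))) (M ／ C₁) Xb e₁ x y m1 (le_refl _)
    (fun z hz => ⟨hXbE hz, fun h => (hC₁ h.1).2 (hXbE₁ hz)⟩) (Bic_sub hB₁ hXbE₁)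
    (Grd_sub hG₁ hrec1)
    (quo_mono (M := M) sdiff_subset hC₁E (hXbE₁.trans hE₁C)) d1 with
    hU | ⟨Z₁, hZ₁, hZ₁c, a₁, b₁, hr₁, hdZ₁, hs₁, hL₁⟩
  · refine hum_mono ?_ hU
    have := Matroid.contract_delete_isMinor M (C₁ \ (F ∪ Z₂)) ∅
    rwa [Matroid.delete_empty] at this
  rw [blk_blk hr₁] at hdZ₁ hs₁ hL₁
  set W₁ := blk E₁ e₁ a₁ b₁ w with hW₁def
  have hW₁E₁ : W₁ ⊆ E₁ := blk_sub
  have hZ₁E₁ : Z₁ ⊆ E₁ := hZ₁.trans hXbE₁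
  have hZ₁E : Z₁ ⊆ M.E := hZ₁E₁.trans hE₁
  have hW₁E : W₁ ⊆ M.E := hW₁E₁.trans hE₁
  have hW₂E : W₂ ⊆ M.E := hW₂E₂.trans hE₂
  have hdW : Disjoint W₁ W₂ := (hE.mono_left hW₁E₁).mono_right hW₂E₂
  -- connectivity
  have k1 : KGe M W₁ E₂ (t1 + 1) :=
    BQ.kge_blk hC₁ hE₁ hE hB₁ hG₁ (hr₁.trans hrec1) (by omega) hK
  have k2 : KGe M✶ W₂ W₁ (t2 + 1) := BQ.kge_blk (M := M✶) (by exact hD₂) (by exact hE₂)
    (hE.symm.mono_right hW₁E₁) hB₂ hG₂ hr₂ (by omega) (BQ.KGe.mono_n (k1.dual hW₁E) (by omega))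
  have k3 : KGe M W₁ W₂ (K + 12 * k + 12 * k) := by
    have := k2.dual (by exact hW₂E)
    rw [Matroid.dual_dual] at this
    exact BQ.KGe.mono_n this (by omega)
  have k4 : KGe (M ／ Z₁) W₁ W₂ (K + 12 * k) := by
    refine BQ.kge_contract (fun z hz => ⟨hZ₁E hz, ?_⟩) (BQ.KGe.mono_n k3 (by omega))
    rintro (hz2 | hz2)
    · exact Set.disjoint_left.1 hdZ₁ hz hz2
    · exact Set.disjoint_left.1 hE (hZ₁E₁ hz) (hW₂E₂ hz2)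
  have fin3 : (M ／ Z₁).Finite := finC Z₁
  have k5 : KGe (M ／ Z₁ ＼ Z₂) W₁ W₂ K := by
    refine BQ.kge_delete
      (fun z hz => ⟨hW₁E hz, fun h => Set.disjoint_left.1 hdZ₁ h hz⟩)
      (fun z hz => ⟨hW₂E hz, fun h => Set.disjoint_left.1 hE (hZ₁E₁ h) (hW₂E₂ hz)⟩) ?_
      (BQ.KGe.mono_n k4 (by omega))
    intro z hz
    refine ⟨⟨hZ₂E hz, fun h => Set.disjoint_left.1 hE (hZ₁E₁ h) (hZ₂ hz)⟩, ?_⟩
    rintro (hz2 | hz2)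
    · exact Set.disjoint_left.1 hE (hW₁E₁ hz2) (hZ₂ hz)
    · exact Set.disjoint_left.1 hdZ₂ hz hz2
  have fin4 : (M ／ Z₁ ＼ Z₂).Finite := BQ.fin_delete Z₂
  -- disjointness of the conflict set from the two sides
  have nG1 : ∀ z ∈ G, z ∉ E₁ := fun z hz => (hC₁ (hGC hz)).2
  have nG2 : ∀ z ∈ G, z ∉ E₂ := fun z hz => (hD₂ (hGD hz)).2
  have nF1 : ∀ z ∈ F, z ∉ E₁ := fun z hz => (hC₁ (hFC hz)).2
  have nF2 : ∀ z ∈ F, z ∉ E₂ := fun z hz => (hD₂ (hFD hz)).2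
  have nFG : ∀ z ∈ F, z ∉ G := fun z hz h => Set.disjoint_left.1 hdFG hz h
  -- the stages
  have stg : ∀ G' ⊆ G, ∀ F' ⊆ F,
      (M ／ Z₁ ＼ Z₂ ／ G' ＼ F').Finite ∧ W₁ ⊆ (M ／ Z₁ ＼ Z₂ ／ G' ＼ F').E ∧
      W₂ ⊆ (M ／ Z₁ ＼ Z₂ ／ G' ＼ F').E ∧
      C₁ \ ((Z₂ ∪ F') ∪ G') ⊆ (M ／ Z₁ ＼ Z₂ ／ G' ＼ F').E \ W₁ ∧
      D₂ \ ((Z₁ ∪ F') ∪ G') ⊆ (M ／ Z₁ ＼ Z₂ ／ G' ＼ F').E \ W₂ ∧
      Bic (M ／ Z₁ ＼ Z₂ ／ G' ＼ F' ／ (C₁ \ ((Z₂ ∪ F') ∪ G'))) W₁ e₁ ∧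
      Bic ((M ／ Z₁ ＼ Z₂ ／ G' ＼ F')✶ ／ (D₂ \ ((Z₁ ∪ F') ∪ G'))) W₂ e₂ := by
    intro G' hG' F' hF'
    have gE : (M ／ Z₁ ＼ Z₂ ／ G' ＼ F').E = (((M.E \ Z₁) \ Z₂) \ G') \ F' := by
      simp only [Matroid.delete_ground, Matroid.contract_ground]
    have finS : (M ／ Z₁ ＼ Z₂ ／ G' ＼ F').Finite := by
      refine ⟨M.ground_finite.subset ?_⟩
      rw [gE]
      exact ((sdiff_subset.trans sdiff_subset).trans sdiff_subset).trans sdiff_subset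
    have s1 : W₁ ⊆ (M ／ Z₁ ＼ Z₂ ／ G' ＼ F').E := by
      rw [gE]
      intro z hz
      exact ⟨⟨⟨⟨hW₁E hz, fun h => Set.disjoint_left.1 hdZ₁ h hz⟩,
        fun h => Set.disjoint_left.1 hE (hW₁E₁ hz) (hZ₂ h)⟩,
        fun h => nG1 z (hG' h) (hW₁E₁ hz)⟩, fun h => nF1 z (hF' h) (hW₁E₁ hz)⟩
    have s2 : W₂ ⊆ (M ／ Z₁ ＼ Z₂ ／ G' ＼ F').E := by
      rw [gE]
      intro z hz
      exact ⟨⟨⟨⟨hW₂E hz, fun h => Set.disjoint_left.1 hE (hZ₁E₁ h) (hW₂E₂ hz)⟩,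
        fun h => Set.disjoint_left.1 hdZ₂ h hz⟩,
        fun h => nG2 z (hG' h) (hW₂E₂ hz)⟩, fun h => nF2 z (hF' h) (hW₂E₂ hz)⟩
    have s3 : C₁ \ ((Z₂ ∪ F') ∪ G') ⊆ (M ／ Z₁ ＼ Z₂ ／ G' ＼ F').E \ W₁ := by
      rw [gE]
      rintro z ⟨hz1, hz2⟩
      simp only [mem_union, not_or] at hz2
      exact ⟨⟨⟨⟨⟨hC₁E hz1, fun h => (hC₁ hz1).2 (hZ₁E₁ h)⟩, hz2.1.1⟩, hz2.2⟩, hz2.1.2⟩,
        fun h => (hC₁ hz1).2 (hW₁E₁ h)⟩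
    have s4 : D₂ \ ((Z₁ ∪ F') ∪ G') ⊆ (M ／ Z₁ ＼ Z₂ ／ G' ＼ F').E \ W₂ := by
      rw [gE]
      rintro z ⟨hz1, hz2⟩
      simp only [mem_union, not_or] at hz2
      exact ⟨⟨⟨⟨⟨hD₂E hz1, hz2.1.1⟩, fun h => (hD₂ hz1).2 (hZ₂ h)⟩, hz2.2⟩, hz2.1.2⟩,
        fun h => (hD₂ hz1).2 (hW₂E₂ h)⟩
    have dG2 : Disjoint G' Z₂ := by
      rw [Set.disjoint_left]
      exact fun z hz h => nG2 z (hG' hz) (hZ₂ h)
    refine ⟨finS, s1, s2, s3, s4, ?_, ?_⟩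
    · have finT : (M ／ Z₁ ＼ Z₂ ／ G' ＼ F' ／ (C₁ \ ((Z₂ ∪ F') ∪ G'))).Finite :=
        BQ.fin_contract _
      refine Bic_of_rk (Bic_sub hB₁ hW₁E₁) ?_ ?_
      · intro z hz
        exact ⟨s1 hz, fun h => (s3 h).2 hz⟩
      · intro X hX
        rw [stage_one dG2 (by
          rw [Set.disjoint_left]
          exact fun z hz h => hz.2 (Or.inl h))]
        refine stage (U := F ∪ Z₂) (U' := F' ∪ Z₂) hE₁ hC₁
          (union_subset_union_left _ hF') hZ₁E₁ hW₁E₁ hdZ₁ hs₁ hL₁ ?_ ?_ hX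
        · ext z
          simp only [mem_union, mem_sdiff, not_or]
          constructor
          · rintro ((h | h) | ⟨h1, h2, h3⟩)
            · exact Or.inl h
            · exact Or.inr ⟨hGC (hG' h), fun h' => nFG z (hF' h') (hG' h),
                fun h' => nG2 z (hG' h) (hZ₂ h')⟩
            · exact Or.inr ⟨h1, h2.2, h2.1⟩
          · rintro (h | ⟨h1, h2, h3⟩)
            · exact Or.inl (Or.inl h)
            · by_cases hg : z ∈ G'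
              · exact Or.inl (Or.inr hg)
              · exact Or.inr ⟨h1, ⟨h3, h2⟩, hg⟩
        · rw [Set.disjoint_left]
          rintro z hz (h | h)
          · exact Set.disjoint_left.1 hE (hW₁E₁ hz) (hZ₂ h)
          · exact nF1 z (hF' h) (hW₁E₁ hz)
    · have finT : ((M ／ Z₁ ＼ Z₂ ／ G' ＼ F')✶ ／ (D₂ \ ((Z₁ ∪ F') ∪ G'))).Finite :=
        BQ.fin_contract _
      refine Bic_of_rk (Bic_sub hB₂ hW₂E₂) ?_ ?_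
      · intro z hz
        exact ⟨s2 hz, fun h => (s4 h).2 hz⟩
      · intro X hX
        rw [stage_two dG2 (by
          rw [Set.disjoint_left]
          rintro z ((h | h) | h) (h' | h')
          · exact Set.disjoint_left.1 hE (hZ₁E₁ h') (hZ₂ h)
          · exact nG2 z (hG' h') (hZ₂ h)
          · exact nF1 z (hF' h) (hZ₁E₁ h')
          · exact nFG z (hF' h) (hG' h')
          · exact h.2 (Or.inl (Or.inl h'))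
          · exact h.2 (Or.inr h'))]
        refine stage (M := M✶) (U := G ∪ Xb) (U' := G' ∪ Z₁) (by exact hE₂) (by exact hD₂)
          (union_subset_union hG' hZ₁) hZ₂ hW₂E₂ hdZ₂ hs₂ hL₂ ?_ ?_ hX
        · ext z
          simp only [mem_union, mem_sdiff, not_or]
          constructor
          · rintro ((h | h) | ⟨h1, h2, h3⟩)
            · exact Or.inl h
            · exact Or.inr ⟨hFD (hF' h), fun h' => nFG z (hF' h) (hG' h'),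
                fun h' => nF1 z (hF' h) (hZ₁E₁ h')⟩
            · exact Or.inr ⟨h1, h3, h2.1⟩
          · rintro (h | ⟨h1, h2, h3⟩)
            · exact Or.inl (Or.inl h)
            · by_cases hg : z ∈ F'
              · exact Or.inl (Or.inr hg)
              · exact Or.inr ⟨h1, ⟨h3, hg⟩, h2⟩
        · rw [Set.disjoint_left]
          rintro z hz (h | h)
          · exact Set.disjoint_left.1 hE (hZ₁E₁ h) (hW₂E₂ hz)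
          · exact nG2 z (hG' h) (hW₂E₂ hz)
  have hmin : ∀ G' F' : Set α, M ／ Z₁ ＼ Z₂ ／ G' ＼ F' ≤m M := fun G' F' =>
    (Matroid.contract_delete_isMinor _ _ _).trans (Matroid.contract_delete_isMinor _ _ _)
  have hGW₁ : Grd W₁ e₁ a₁ b₁ w w := Grd_sub hG₁ (hr₁.trans hrec1)
  have hGW₂ : Grd W₂ e₂ a₂ b₂ w w := Grd_sub hG₂ hr₂
  by_cases hend : KGe (M ／ Z₁ ＼ Z₂ ／ G ＼ F) W₁ W₂ (K + 1)
  · obtain ⟨f1, s1, s2, s3, s4, s5, s6⟩ := stg G (subset_refl _) F (subset_refl _)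
    refine hum_mono (hmin G F) (hW w (by omega) _ W₁ W₂ _ _ e₁ e₂ a₁ b₁ a₂ b₂ s1 s2 hdW s3 s4 s5
      hGW₁ s6 hGW₂ ?_ (BQ.KGe.mono_n hend (by omega)))
    have e1 : (C₁ \ ((Z₂ ∪ F) ∪ G)) \ (D₂ \ ((Z₁ ∪ F) ∪ G)) = C₁ \ ((Z₂ ∪ F) ∪ G) := by
      refine sdiff_eq_self_iff_disjoint.2 ?_
      rw [Set.disjoint_left]
      intro z hz hz'
      have hzFG : z ∈ F ∪ G := hFG ▸ (⟨hz'.1, hz.1⟩ : z ∈ C₁ ∩ D₂)
      rcases hzFG with h | h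
      · exact hz'.2 (Or.inl (Or.inr h))
      · exact hz'.2 (Or.inr h)
    rw [e1]
    omega
  · have hGE : G ⊆ (M ／ Z₁ ＼ Z₂).E := by
      intro z hz
      exact ⟨⟨hC₁E (hGC hz), fun h => nG1 z hz (hZ₁E₁ h)⟩, fun h => nG2 z hz (hZ₂ h)⟩
    have hFE : F ⊆ (M ／ Z₁ ＼ Z₂).E := by
      intro z hz
      exact ⟨⟨hC₁E (hFC hz), fun h => nF1 z hz (hZ₁E₁ h)⟩, fun h => nF2 z hz (hZ₂ h)⟩
    obtain ⟨G', hG', F', hF', ka, kb⟩ := cont_roles hGE hFE hdFG.symm (le_refl K) k5 hend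
    obtain ⟨f1, s1, s2, s3, s4, s5, s6⟩ := stg G' hG' F' hF'
    refine hum_mono (hmin G' F') (hs₀ w (by omega) w (by omega) _ W₁ W₂ _ _ s1 s2 hdW s3 s4 ?_ ?_
      (BQ.KGe.mono_n ka (by omega)) kb)
    · exact Grd.toPGrid (by omega) s5 hGW₁
    · exact Grd.toPGrid (by omega) s6 hGW₂

open WPP in
/-- **Theorem W++.** -/
theorem thmWpp (k : ℕ) (hk : 1 ≤ k) : ∃ κ : ℕ, ∀ q : ℕ, ∃ n₀ : ℕ, ∀ n ≥ n₀,
    ∀ {α : Type u} (M : Matroid α) [M.Finite] (E₁ E₂ C₁ D₂ F G : Set α)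
    (e₁ e₂ : α → Sym2 (ℕ × ℕ)) (x y x' y' : ℕ), E₁ ⊆ M.E → E₂ ⊆ M.E → Disjoint E₁ E₂ →
    C₁ ⊆ M.E \ E₁ → D₂ ⊆ M.E \ E₂ → Bic (M ／ C₁) E₁ e₁ → Grd E₁ e₁ x y n n →
    Bic (M✶ ／ D₂) E₂ e₂ → Grd E₂ e₂ x' y' n n → C₁ ∩ D₂ ⊆ F ∪ G →
    rk (M ／ (C₁ \ F)) E₁ ≤ rk (M ／ C₁) E₁ + q →
    rk (M✶ ／ (D₂ \ G)) E₂ ≤ rk (M✶ ／ D₂) E₂ + q →
    KGe M E₁ E₂ κ → HasUniformMinor M k := by
  obtain ⟨κ, h⟩ := thmWpp_part.{u} k hk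
  refine ⟨κ, ?_⟩
  intro q
  obtain ⟨n₀, h⟩ := h q
  refine ⟨n₀, ?_⟩
  intro n hn α M _ E₁ E₂ C₁ D₂ F G e₁ e₂ x y x' y' hE₁ hE₂ hE hC₁ hD₂ hB₁ hG₁ hB₂ hG₂ hFG
    hq1 hq2 hK
  have hC₁E : C₁ ⊆ M.E := hC₁.trans sdiff_subset
  have hD₂E : D₂ ⊆ M.E := hD₂.trans sdiff_subset
  have finC : ∀ A : Set α, (M ／ A).Finite := fun A => BQ.fin_contract A
  have finD : ∀ A : Set α, (M✶ ／ A).Finite := fun A => BQ.fin_contract A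
  refine h n hn M E₁ E₂ C₁ D₂ (F ∩ (C₁ ∩ D₂)) ((C₁ ∩ D₂) \ F) e₁ e₂ x y x' y' hE₁ hE₂ hE hC₁ hD₂
    hB₁ hG₁ hB₂ hG₂ ?_ ?_ ?_ ?_ hK
  · ext z
    simp only [mem_union, mem_inter_iff, mem_sdiff]
    tauto
  · rw [Set.disjoint_left]
    exact fun z hz h => h.2 hz.1
  · have h1 : rk (M ／ (C₁ \ (F ∩ (C₁ ∩ D₂)))) E₁ ≤ rk (M ／ (C₁ \ F)) E₁ :=
      Quo.le (quo_mono (M := M) (sdiff_subset_sdiff_right inter_subset_left)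
        (sdiff_subset.trans hC₁E) (fun z hz => ⟨hE₁ hz, fun h => (hC₁ h.1).2 hz⟩))
        (subset_refl _)
    omega
  · have h1 : rk (M✶ ／ (D₂ \ ((C₁ ∩ D₂) \ F))) E₂ ≤ rk (M✶ ／ (D₂ \ G)) E₂ :=
      Quo.le (quo_mono (M := M✶) (A := D₂ \ G) (B := D₂ \ ((C₁ ∩ D₂) \ F)) (by
        rintro z ⟨h1, h2⟩
        refine ⟨h1, fun h => ?_⟩
        rcases hFG h.1 with h' | h'
        · exact h.2 h'
        · exact h2 h') (by exact sdiff_subset.trans hD₂E)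
        (fun z hz => ⟨hE₂ hz, fun h => (hD₂ h.1).2 hz⟩))
        (subset_refl _)
    omega

end BICS
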