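import Pool.Agent.Helper57.TB.Few
import Pool.Agent.Helper74.WPP.Main

/-!
# The statement layer of Theorem W++ : `G_n^+` and `eRk` (helper74, after helper57's `TB/Top`, `TB/Few`)
-/

open Set BIC
open scoped Matroid

namespace BICS

universe u

/-- Theorem W++ in terms of the graph `G_n^+`. -/
theorem topWpp {k : ℕ} (hk : 1 ≤ k) (q : ℕ) : ∃ n₀ : ℕ, ∀ n ≥ n₀,
    ∀ {α : Type u} (M : Matroid α) [M.Finite] (C₁ D₁ C₂ D₂ F G : Set α),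
    C₁ ⊆ M.E → D₂ ⊆ M.E → Disjoint (M.E \ (C₁ ∪ D₁)) (M.E \ (C₂ ∪ D₂)) →
    IsBicircular (M ／ C₁ ＼ D₁) (GPlus n) → IsBicircular (M✶ ／ D₂ ＼ C₂) (GPlus n) →
    C₁ ∩ D₂ ⊆ F ∪ G →
    rk (M ／ (C₁ \ F)) (M.E \ (C₁ ∪ D₁)) ≤ rk (M ／ C₁) (M.E \ (C₁ ∪ D₁)) + q →
    rk (M✶ ／ (D₂ \ G)) (M.E \ (C₂ ∪ D₂)) ≤ rk (M✶ ／ D₂) (M.E \ (C₂ ∪ D₂)) + q →
    KGe M (M.E \ (C₁ ∪ D₁)) (M.E \ (C₂ ∪ D₂)) n₀ → HasUniformMinor M k := by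
  obtain ⟨κ, h⟩ := thmWpp.{u} k hk
  obtain ⟨n₀, h₀⟩ := h q
  refine ⟨4 * (n₀ + κ) + 2, ?_⟩
  intro n hn α M _ C₁ D₁ C₂ D₂ F G hC₁ hD₂ hdis hb₁ hb₂ hFG hdef₁ hdef₂ hK
  obtain ⟨S₁, e₁, hS₁, hB₁, hG₁, hk₁⟩ := star1 (by omega) hC₁ hb₁
  obtain ⟨S₂, e₂, hS₂, hB₂, hG₂, hk₂⟩ := star1 (M := M✶) (by omega) hD₂ hb₂
  rw [Matroid.dual_ground, union_comm D₂ C₂] at hS₂ hk₂
  have hE₁ : M.E \ (C₁ ∪ D₁) ⊆ M.E := sdiff_subset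
  have hE₂ : M.E \ (C₂ ∪ D₂) ⊆ M.E := sdiff_subset
  have k1 : KGe M S₁ (M.E \ (C₂ ∪ D₂)) (2 * (n₀ + κ)) := by
    refine hk₁ _ _ hdis ?_
    intro X h1 h2
    have := hK X h1 h2
    omega
  have k2 : KGe M✶ S₂ S₁ (n₀ + κ) := by
    refine hk₂ _ _ (hdis.symm.mono_right hS₁) ?_
    exact k1.dual (hS₁.trans hE₁)
  have k3 : KGe M S₁ S₂ (n₀ + κ) := by
    have := k2.dual (M := M✶) (hS₂.trans hE₂)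
    rwa [Matroid.dual_dual] at this
  refine h₀ n (by omega) M S₁ S₂ C₁ D₂ F G e₁ e₂ 0 0 0 0 (hS₁.trans hE₁) (hS₂.trans hE₂)
    (hdis.mono hS₁ hS₂) ?_ ?_ hB₁ hG₁ hB₂ hG₂ hFG ?_ ?_ (BQ.KGe.mono_n k3 (by omega))
  · exact fun c hc => ⟨hC₁ hc, fun h => (hS₁ h).2 (Or.inl hc)⟩
  · exact fun d hd => ⟨hD₂ hd, fun h => (hS₂ h).2 (Or.inr hd)⟩
  · exact defect_mono hC₁ sdiff_subset (fun x hx => ⟨hx.1, fun h => hx.2 (Or.inl h)⟩) hS₁ hdef₁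
  · exact defect_mono (M := M✶) (by exact hD₂) sdiff_subset
      (fun x hx => ⟨hx.1, fun h => hx.2 (Or.inr h)⟩) hS₂ hdef₂

/-- The statement of the hand-in. -/
theorem split_conflicts {k : ℕ} (hk : 1 ≤ k) (q : ℕ) : ∃ n : ℕ, ∀ (α : Type u)
    (M : Matroid α), M.Finite → ∀ C₁ D₁ C₂ D₂ F G : Set α,
    C₁ ⊆ M.E → D₁ ⊆ M.E → C₂ ⊆ M.E → D₂ ⊆ M.E → Disjoint C₁ D₁ → Disjoint C₂ D₂ →
    Disjoint (M ／ C₁ ＼ D₁).E (M ／ C₂ ＼ D₂).E →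
    IsBicircular (M ／ C₁ ＼ D₁) (GPlus n) →
    IsBicircular (M ／ C₂ ＼ D₂)✶ (GPlus n) →
    (∀ X : Set α, (M ／ C₁ ＼ D₁).E ⊆ X → X ⊆ M.E \ (M ／ C₂ ＼ D₂).E →
      (n : ℕ∞) + M.eRk M.E ≤ M.eRk X + M.eRk (M.E \ X)) →
    C₁ ∩ D₂ ⊆ F ∪ G →
    (M ／ (C₁ \ F)).eRk (M ／ C₁ ＼ D₁).E ≤ (M ／ C₁).eRk (M ／ C₁ ＼ D₁).E + q →
    (M✶ ／ (D₂ \ G)).eRk (M ／ C₂ ＼ D₂).E ≤ (M✶ ／ D₂).eRk (M ／ C₂ ＼ D₂).E + q →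
    ∃ N : Matroid α, N ≤m M ∧ N.E.ncard = 2 * k ∧ ∀ B, N.IsBase B ↔ B ⊆ N.E ∧ B.ncard = k := by
  obtain ⟨n, h₀⟩ := topWpp.{u} hk q
  refine ⟨n, ?_⟩
  intro α M hM C₁ D₁ C₂ D₂ F G hC₁ _ _ hD₂ _ hCD₂ hdis hb₁ hb₂ hκ hFG hdef₁ hdef₂
  have g₁ : (M ／ C₁ ＼ D₁).E = M.E \ (C₁ ∪ D₁) := by
    rw [Matroid.delete_ground, Matroid.contract_ground, sdiff_sdiff]
  have g₂ : (M ／ C₂ ＼ D₂).E = M.E \ (C₂ ∪ D₂) := by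
    rw [Matroid.delete_ground, Matroid.contract_ground, sdiff_sdiff]
  have hd : (M ／ C₂ ＼ D₂)✶ = M✶ ／ D₂ ＼ C₂ := by
    rw [Matroid.dual_delete, Matroid.dual_contract, Matroid.contract_delete_comm _ hCD₂.symm]
  rw [g₁, g₂] at hdis hκ
  rw [g₁] at hdef₁
  rw [g₂] at hdef₂
  rw [hd] at hb₂
  have f1 : (M ／ (C₁ \ F)).Finite := ⟨M.ground_finite.subset sdiff_subset⟩
  have f2 : (M ／ C₁).Finite := ⟨M.ground_finite.subset sdiff_subset⟩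
  have f3 : (M✶ ／ (D₂ \ G)).Finite := ⟨M✶.ground_finite.subset sdiff_subset⟩
  have f4 : (M✶ ／ D₂).Finite := ⟨M✶.ground_finite.subset sdiff_subset⟩
  refine h₀ n (le_refl _) M C₁ D₁ C₂ D₂ F G hC₁ hD₂ hdis hb₁ hb₂ hFG ?_ ?_ ?_
  · rw [← cast_rk, ← cast_rk] at hdef₁
    exact_mod_cast hdef₁
  · rw [← cast_rk, ← cast_rk] at hdef₂
    exact_mod_cast hdef₂
  · intro X h1 h2
    have h3 := hκ X h1 h2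
    rw [← cast_rk, ← cast_rk, ← cast_rk] at h3
    exact_mod_cast h3

end BICS
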